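import Pool.Agent.Lib.MP_656a26_gt.Defs

/-!
# A topological group with separable closed subgroups whose product with F([0,1]) is bad
-/

open Topology TopologicalSpace Filter Set Cardinal

namespace Pool.Agent.Lib.MP_656a26_gt


/-- `mFourier m` as a multiplicative character. -/
theorem mFourier_nsmul {d : Type} [Fintype d] (m : d → ℤ) (b : UnitAddTorus d) (k : ℕ) :
    UnitAddTorus.mFourier m (k • b) = (UnitAddTorus.mFourier m b) ^ k := by
  simp only [UnitAddTorus.mFourier, ContinuousMap.coe_mk, fourier_apply, Pi.smul_apply]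
  rw [← Finset.prod_pow]
  refine Finset.prod_congr rfl fun i _ => ?_
  rw [smul_comm, AddCircle.toCircle_nsmul]
  simp

theorem mFourier_add_apply {d : Type} [Fintype d] (m : d → ℤ) (b c : UnitAddTorus d) :
    UnitAddTorus.mFourier m (b + c) = UnitAddTorus.mFourier m b * UnitAddTorus.mFourier m c := by
  simp only [UnitAddTorus.mFourier, ContinuousMap.coe_mk, fourier_apply, Pi.add_apply]
  rw [← Finset.prod_mul_distrib]
  refine Finset.prod_congr rfl fun i _ => ?_
  rw [smul_add, AddCircle.toCircle_add]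
  simp

theorem mFourier_eq_toCircle {d : Type} [Fintype d] (m : d → ℤ) (b : UnitAddTorus d) :
    UnitAddTorus.mFourier m b = AddCircle.toCircle (∑ i, m i • b i) := by
  simp only [UnitAddTorus.mFourier, ContinuousMap.coe_mk, fourier_apply]
  have : ∀ s : Finset d, (∏ i ∈ s, (AddCircle.toCircle (m i • b i) : ℂ))
      = AddCircle.toCircle (∑ i ∈ s, m i • b i) := by
    classical
    intro s
    induction s using Finset.induction_on with
    | empty => simp
    | insert a s ha ih =>
      rw [Finset.prod_insert ha, Finset.sum_insert ha, ih, AddCircle.toCircle_add]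
      simp
  exact this Finset.univ

theorem mFourier_eq_one_iff {d : Type} [Fintype d] (m : d → ℤ) (b : UnitAddTorus d) :
    UnitAddTorus.mFourier m b = 1 ↔ ∑ i, m i • b i = 0 := by
  rw [mFourier_eq_toCircle]
  constructor
  · intro h
    have h' : AddCircle.toCircle (∑ i, m i • b i) = AddCircle.toCircle (0 : UnitAddCircle) := by
      apply Subtype.ext
      rw [h]; simp
    exact AddCircle.injective_toCircle one_ne_zero h'
  · intro h
    rw [h]; simp

theorem norm_mFourier_apply {d : Type} [Fintype d] (m : d → ℤ) (b : UnitAddTorus d) :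
    ‖UnitAddTorus.mFourier m b‖ = 1 := by
  rw [mFourier_eq_toCircle]; exact Circle.norm_coe _

/-- Kronecker's theorem: if no nontrivial integer combination of the coordinates of `b` vanishes,
then the multiples of `b` are dense in the torus. -/
theorem kronecker {d : Type} [Fintype d] (b : UnitAddTorus d)
    (hb : ∀ m : d → ℤ, ∑ i, m i • b i = 0 → m = 0) :
    Dense (AddSubgroup.zmultiples b : Set (UnitAddTorus d)) := by
  classical
  by_contra hnd
  set Z : AddSubgroup (UnitAddTorus d) := (AddSubgroup.zmultiples b).topologicalClosure with hZ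
  have hZc : IsClosed (Z : Set (UnitAddTorus d)) := AddSubgroup.isClosed_topologicalClosure _
  obtain ⟨y, hy⟩ : ∃ y, y ∉ Z := by
    by_contra h
    push Not at h
    apply hnd
    intro y
    exact h y
  have hbZ : ∀ k : ℕ, k • b ∈ Z := fun k =>
    AddSubgroup.le_topologicalClosure _ (AddSubgroup.nsmul_mem _ (AddSubgroup.mem_zmultiples b) k)
  have hyZc : IsClosed ((fun z => y + z) '' (Z : Set (UnitAddTorus d))) :=
    (Homeomorph.addLeft y).isClosedMap _ hZc
  have hdisj : Disjoint (Z : Set (UnitAddTorus d)) ((fun z => y + z) '' (Z : Set (UnitAddTorus d))) := by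
    rw [Set.disjoint_left]
    rintro _ hz ⟨z, hz', rfl⟩
    apply hy
    have := Z.sub_mem hz hz'
    simpa using this
  obtain ⟨f, hf0, hf1, -⟩ := exists_continuous_zero_one_of_isClosed hZc hyZc hdisj
  let F : C(UnitAddTorus d, ℂ) := ⟨fun x => (f x : ℂ), by fun_prop⟩
  -- the averaging functional
  let Δ : ℕ → C(UnitAddTorus d, ℂ) → ℂ := fun N g =>
    (∑ k ∈ Finset.range N, (g (k • b) - g (y + k • b))) / N
  have hΔF : ∀ N : ℕ, N ≠ 0 → Δ N F = -1 := by
    intro N hN
    have h1 : ∀ k ∈ Finset.range N, F (k • b) - F (y + k • b) = -1 := by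
      intro k _
      have e0 : f (k • b) = 0 := hf0 (hbZ k)
      have e1 : f (y + k • b) = 1 := hf1 ⟨k • b, hbZ k, rfl⟩
      simp [F, e0, e1]
    simp only [Δ]
    rw [Finset.sum_congr rfl h1]
    have : (N : ℂ) ≠ 0 := by exact_mod_cast hN
    simp
    field_simp
  have hΔadd : ∀ N g h, Δ N (g + h) = Δ N g + Δ N h := by
    intro N g h
    simp only [Δ, ContinuousMap.add_apply]
    rw [← add_div, ← Finset.sum_add_distrib]
    congr 1
    refine Finset.sum_congr rfl fun k _ => by ring
  have hΔsmul : ∀ N (c : ℂ) g, Δ N (c • g) = c * Δ N g := by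
    intro N c g
    simp only [Δ, ContinuousMap.smul_apply, smul_eq_mul]
    rw [← mul_div_assoc, Finset.mul_sum]
    congr 1
    refine Finset.sum_congr rfl fun k _ => by ring
  have hΔbound : ∀ N : ℕ, ∀ g, ‖Δ N g‖ ≤ 2 * ‖g‖ := by
    intro N g
    simp only [Δ]
    rcases Nat.eq_zero_or_pos N with rfl | hN
    · simp
    · rw [norm_div, Complex.norm_natCast, div_le_iff₀ (by exact_mod_cast hN)]
      calc ‖∑ k ∈ Finset.range N, (g (k • b) - g (y + k • b))‖
          ≤ ∑ k ∈ Finset.range N, ‖g (k • b) - g (y + k • b)‖ := norm_sum_le _ _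
        _ ≤ ∑ k ∈ Finset.range N, 2 * ‖g‖ := by
            refine Finset.sum_le_sum fun k _ => ?_
            calc ‖g (k • b) - g (y + k • b)‖ ≤ ‖g (k • b)‖ + ‖g (y + k • b)‖ := norm_sub_le _ _
              _ ≤ ‖g‖ + ‖g‖ := add_le_add (g.norm_coe_le_norm _) (g.norm_coe_le_norm _)
              _ = 2 * ‖g‖ := by ring
        _ = 2 * ‖g‖ * N := by simp; ring
  have hΔchar : ∀ m : d → ℤ, Tendsto (fun N => Δ N (UnitAddTorus.mFourier m)) atTop (𝓝 0) := by
    intro m
    by_cases hm : m = 0
    · subst hm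
      have : ∀ N, Δ N (UnitAddTorus.mFourier 0) = 0 := by
        intro N
        simp [Δ, UnitAddTorus.mFourier_zero]
      simp [this]
    · set c := UnitAddTorus.mFourier m b with hc
      have hc1 : c ≠ 1 := fun h => hm (hb m ((mFourier_eq_one_iff m b).1 h))
      have hcn : ‖c‖ = 1 := norm_mFourier_apply m b
      set a := UnitAddTorus.mFourier m y with ha
      have han : ‖a‖ = 1 := norm_mFourier_apply m y
      have hval : ∀ N : ℕ, Δ N (UnitAddTorus.mFourier m) = (1 - a) * ((c ^ N - 1) / (c - 1)) / N := by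
        intro N
        simp only [Δ]
        congr 1
        rw [← geom_sum_eq hc1, Finset.mul_sum]
        refine Finset.sum_congr rfl fun k _ => ?_
        rw [mFourier_add_apply, mFourier_nsmul]
        ring
      have hb' : ∀ N : ℕ, ‖Δ N (UnitAddTorus.mFourier m)‖ ≤ (2 * (2 / ‖c - 1‖)) / N := by
        intro N
        rw [hval, norm_div, norm_mul, norm_div, Complex.norm_natCast]
        gcongr
        · calc ‖1 - a‖ ≤ ‖(1:ℂ)‖ + ‖a‖ := norm_sub_le _ _
            _ = 2 := by rw [han]; norm_num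
        · calc ‖c ^ N - 1‖ ≤ ‖c ^ N‖ + ‖(1:ℂ)‖ := norm_sub_le _ _
            _ = 2 := by rw [norm_pow, hcn]; norm_num
      refine squeeze_zero_norm hb' ?_
      exact tendsto_const_div_atTop_nhds_zero_nat _
  have hspan : ∀ g ∈ Submodule.span ℂ (range (UnitAddTorus.mFourier (d := d))),
      Tendsto (fun N => Δ N g) atTop (𝓝 0) := by
    intro g hg
    induction hg using Submodule.span_induction with
    | mem g hg => obtain ⟨m, rfl⟩ := hg; exact hΔchar m
    | zero =>
      have : ∀ N, Δ N 0 = 0 := by intro N; simp [Δ]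
      simp [this]
    | add g h _ _ ihg ihh =>
      simp only [hΔadd]
      simpa using ihg.add ihh
    | smul c g _ ih =>
      simp only [hΔsmul]
      simpa using ih.const_mul c
  -- approximate F
  have hF : F ∈ closure (Submodule.span ℂ (range (UnitAddTorus.mFourier (d := d))) :
      Set C(UnitAddTorus d, ℂ)) := by
    have h := UnitAddTorus.span_mFourier_closure_eq_top (d := d)
    have : F ∈ (Submodule.span ℂ (range <| UnitAddTorus.mFourier (d := d))).topologicalClosure := by
      rw [h]; trivial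
    exact this
  obtain ⟨g, hg, hgF⟩ := Metric.mem_closure_iff.1 hF (1/4) (by norm_num)
  have hg0 := hspan g hg
  rw [Metric.tendsto_atTop] at hg0
  obtain ⟨N, hN⟩ := hg0 (1/4) (by norm_num)
  have hN' := hN (N + 1) (Nat.le_succ _)
  have e1 : Δ (N+1) F = Δ (N+1) g + Δ (N+1) (F - g) := by
    rw [← hΔadd]; congr 1; abel
  have e2 : ‖Δ (N+1) (F - g)‖ ≤ 2 * ‖F - g‖ := hΔbound _ _
  have e3 : ‖F - g‖ < 1/4 := by rwa [← dist_eq_norm]
  have e4 : ‖Δ (N+1) g‖ < 1/4 := by simpa using hN'
  have e5 : ‖Δ (N+1) F‖ = 1 := by rw [hΔF _ (Nat.succ_ne_zero _)]; simp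
  have e6 : ‖Δ (N+1) F‖ ≤ ‖Δ (N+1) g‖ + ‖Δ (N+1) (F - g)‖ := by rw [e1]; exact norm_add_le _ _
  linarith



/-- A subgroup of a (possibly infinite dimensional) torus is dense as soon as it contains, for
every finite set of coordinates, an element generic on these coordinates. -/
theorem dense_of_generic {Ω : Type} (B : AddSubgroup (Ω → UnitAddCircle))
    (hB : ∀ A : Finset Ω, ∃ b ∈ B, ∀ m : Ω → ℤ, ∑ a ∈ A, m a • b a = 0 → ∀ a ∈ A, m a = 0) :
    Dense (B : Set (Ω → UnitAddCircle)) := by
  classical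
  rw [dense_iff_inter_open]
  rintro U hU ⟨x, hx⟩
  obtain ⟨I, u, hu, huU⟩ := isOpen_pi_iff.1 hU x hx
  obtain ⟨b, hbB, hb⟩ := hB I
  let b' : UnitAddTorus I := fun i => b i
  have hk := kronecker b' (by
    intro m hm
    let m' : Ω → ℤ := fun a => if h : a ∈ I then m ⟨a, h⟩ else 0
    have h1 : ∑ a ∈ I, m' a • b a = 0 := by
      rw [← hm, ← Finset.sum_coe_sort I]
      refine Finset.sum_congr rfl fun i _ => ?_
      simp [m', b']
    have h2 := hb m' h1
    ext i
    have h3 := h2 i i.2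
    simpa [m'] using h3)
  rw [dense_iff_inter_open] at hk
  obtain ⟨z, hzU, hz⟩ := hk (Set.pi Set.univ fun i : I => u i)
    (isOpen_set_pi Set.finite_univ fun i _ => (hu i i.2).1)
    ⟨fun i => x i, fun i _ => (hu i i.2).2⟩
  obtain ⟨k, rfl⟩ := AddSubgroup.mem_zmultiples_iff.1 hz
  refine ⟨k • b, huU ?_, B.zsmul_mem hbB k⟩
  intro a ha
  exact hzU ⟨a, ha⟩ trivial

/-- an index type of order type omega one -/
theorem exists_index : ∃ (ι : Type) (_ : LinearOrder ι), Uncountable ι ∧
    (∀ a : ι, (Set.Iic a).Countable) ∧ #ι ≤ 𝔠 := by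
  refine ⟨(aleph 1).ord.ToType, inferInstance, ?_, ?_, ?_⟩
  · rw [← Cardinal.aleph0_lt_mk_iff, Cardinal.mk_ord_toType]
    exact Cardinal.aleph0_lt_aleph_one
  · intro a
    have h : #(Set.Iio a) < aleph 1 := by simpa using Cardinal.mk_Iio_lt a
    have h2 : (Set.Iio a).Countable := by
      rw [← Cardinal.le_aleph0_iff_set_countable]
      have h3 : #(Set.Iio a) < Order.succ ℵ₀ := by
        rw [Cardinal.succ_aleph0]; exact h
      exact Order.lt_succ_iff.1 h3
    rw [← Set.Iio_insert]
    exact h2.insert a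
  · rw [Cardinal.mk_ord_toType]; exact Cardinal.aleph_one_le_continuum

theorem exists_family (K : Subfield ℝ) (hK : #K ≤ ℵ₀) (J : Type) (hJ : #J ≤ 𝔠) :
    ∃ (v : J → ℝ) (g : ℝ →ₗ[K] (J →₀ K)), (∀ j, g (v j) = Finsupp.single j 1) ∧ g 1 = 0 := by
  classical
  obtain ⟨⟨I, b⟩⟩ := Module.Free.exists_basis (R := K) (M := ℝ)
  have hI : #I = 𝔠 := by
    rw [b.mk_eq_rank'']
    rw [Module.Free.rank_eq_mk_of_infinite_lt K ℝ, Cardinal.mk_real]
    rw [Cardinal.mk_real]
    simpa using lt_of_le_of_lt hK Cardinal.aleph0_lt_continuum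
  have hOJ : #(Option J) ≤ #I := by
    rw [hI, Cardinal.mk_option]
    exact Cardinal.add_le_of_le Cardinal.aleph0_le_continuum hJ (Cardinal.one_le_aleph0.trans Cardinal.aleph0_le_continuum)
  obtain ⟨e⟩ := Cardinal.le_def _ _ |>.1 hOJ
  set c : ℝ := b (e none) with hc
  have hc0 : c ≠ 0 := b.ne_zero _
  let mulc : ℝ →ₗ[K] ℝ := LinearMap.mulRight K c
  let v : J → ℝ := fun j => b (e (some j)) / c
  let g : ℝ →ₗ[K] (J →₀ K) :=
    (Finsupp.lcomapDomain (fun j => e (some j)) (fun x y h => by simpa using h)).comp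
      ((b.repr : ℝ →ₗ[K] (I →₀ K)).comp mulc)
  refine ⟨v, g, ?_, ?_⟩
  · intro j
    ext k
    simp only [g, mulc, v, LinearMap.comp_apply, LinearMap.mulRight_apply]
    rw [div_mul_cancel₀ _ hc0]
    simp [Finsupp.lcomapDomain, Finsupp.single_apply]
  · ext k
    simp only [g, mulc, LinearMap.comp_apply, LinearMap.mulRight_apply, one_mul]
    simp [Finsupp.lcomapDomain, hc]



/-- The data of the construction: index type, reals, functional. -/
structure Data where
  ι : Type
  [ord : LinearOrder ι]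
  unc : Uncountable ι
  cnt : ∀ a : ι, (Set.Iic a).Countable
  K : Subfield ℝ
  r : K
  hr : ∀ a c : ℤ, (a : K) + c * r = 0 → a = 0 ∧ c = 0
  v : Option ι × WithTop ι → ℝ
  g : ℝ →ₗ[K] (Option ι × WithTop ι →₀ K)
  hg : ∀ j, g (v j) = Finsupp.single j 1
  hg1 : g 1 = 0

attribute [instance] Data.ord Data.unc

namespace Data

variable (D : Data)

/-- The underlying group. -/
abbrev G : Type := WithTop D.ι →₀ ℤ

/-- index set of coordinates of the torus -/
abbrev Om : Type := Bool ⊕ D.ι

open Classical in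
/-- The matrix of the construction. -/
noncomputable def M : D.Om → WithTop D.ι → ℝ
  | Sum.inl false, β => D.v (none, β)
  | Sum.inl true, β => if β = ⊤ then 0 else D.r * D.v (none, β)
  | Sum.inr α, β => if (α : WithTop D.ι) ≤ β then D.v (some α, β) else 0

/-- The homomorphism to the reals -/
noncomputable def L (ω : D.Om) : D.G →+ ℝ :=
  (Finsupp.linearCombination ℤ (D.M ω)).toAddMonoidHom

theorem L_apply (ω : D.Om) (h : D.G) : D.L ω h = h.sum fun β n => (n : ℝ) * D.M ω β := by
  simp [L, Finsupp.linearCombination_apply]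

/-- The homomorphism to the torus -/
noncomputable def Φ : D.G →+ (D.Om → UnitAddCircle) :=
  AddMonoidHom.pi fun ω => (QuotientAddGroup.mk' (AddSubgroup.zmultiples (1:ℝ))).comp (D.L ω)

theorem Φ_apply (h : D.G) (ω : D.Om) : D.Φ h ω = ((D.L ω h : ℝ) : UnitAddCircle) := rfl

theorem coe_eq_zero_iff (x : ℝ) : (x : UnitAddCircle) = 0 ↔ ∃ k : ℤ, x = k := by
  rw [AddCircle.coe_eq_zero_iff]
  constructor
  · rintro ⟨k, hk⟩; exact ⟨k, by simpa using hk.symm⟩
  · rintro ⟨k, hk⟩; exact ⟨k, by simpa using hk.symm⟩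

theorem g_intCast (k : ℤ) : D.g (k : ℝ) = 0 := by
  have h : (k : ℝ) = (k : D.K) • (1 : ℝ) := by
    simp [Subfield.smul_def]
  rw [h, map_smul, D.hg1, smul_zero]

theorem g_L (ω : D.Om) (h : D.G) (j : Option D.ι × WithTop D.ι) :
    D.g (D.L ω h) j = h.sum fun β n => (n : D.K) * D.g (D.M ω β) j := by
  rw [L_apply, Finsupp.sum, map_sum, Finsupp.finsetSum_apply, Finsupp.sum]
  refine Finset.sum_congr rfl fun β _ => ?_
  have : ((h β : ℤ) : ℝ) * D.M ω β = ((h β : ℤ) : D.K) • D.M ω β := by
    simp [Subfield.smul_def]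
  rw [this, map_smul]; simp

theorem sum_single' (h : D.G) (β : WithTop D.ι) (f : WithTop D.ι → D.K)
    (hf : ∀ γ, γ ≠ β → f γ = 0) :
    (h.sum fun γ n => (n : D.K) * f γ) = h β * f β := by
  rw [Finsupp.sum]
  by_cases hβ : β ∈ h.support
  · rw [Finset.sum_eq_single β]
    · intro γ _ hγ; rw [hf γ hγ, mul_zero]
    · intro h'; exact absurd hβ h'
  · rw [Finset.sum_eq_zero]
    · have : h β = 0 := by simpa using hβ
      simp [this]
    · intro γ hγ
      rw [hf γ, mul_zero]
      rintro rfl; exact hβ hγ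

theorem g_L_false (h : D.G) (β : WithTop D.ι) :
    D.g (D.L (Sum.inl false) h) (none, β) = h β := by
  rw [g_L, D.sum_single' h β]
  · simp [M, D.hg]
  · intro γ hγ
    simp [M, D.hg, hγ]

theorem g_L_false' (h : D.G) (α : D.ι) (β : WithTop D.ι) :
    D.g (D.L (Sum.inl false) h) (some α, β) = 0 := by
  rw [g_L]
  apply Finset.sum_eq_zero
  intro γ _
  simp [M, D.hg]

theorem g_r_smul (x : ℝ) : D.g ((D.r : ℝ) * x) = D.r • D.g x := by
  rw [← map_smul]; rfl

theorem g_L_true (h : D.G) (β : D.ι) :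
    D.g (D.L (Sum.inl true) h) (none, (β : WithTop D.ι)) = h β * D.r := by
  rw [g_L, D.sum_single' h β]
  · simp [M, D.hg, g_r_smul]
  · intro γ hγ
    simp only [M]
    split_ifs with h
    · simp
    · rw [g_r_smul]; simp [D.hg, hγ]

theorem g_L_true_top (h : D.G) :
    D.g (D.L (Sum.inl true) h) (none, ⊤) = 0 := by
  rw [g_L]
  apply Finset.sum_eq_zero
  intro γ _
  simp only [M]
  split_ifs with h
  · simp
  · rw [g_r_smul]; simp [D.hg, h]

theorem g_L_true' (h : D.G) (α : D.ι) (β : WithTop D.ι) :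
    D.g (D.L (Sum.inl true) h) (some α, β) = 0 := by
  rw [g_L]
  apply Finset.sum_eq_zero
  intro γ _
  simp only [M]
  split_ifs with h
  · simp
  · rw [g_r_smul]; simp [D.hg]

theorem g_L_inr (h : D.G) (α : D.ι) (β : WithTop D.ι) (hαβ : (α : WithTop D.ι) ≤ β) :
    D.g (D.L (Sum.inr α) h) (some α, β) = h β := by
  rw [g_L, D.sum_single' h β]
  · simp [M, D.hg, hαβ]
  · intro γ hγ
    simp only [M]
    split_ifs with h
    · simp [D.hg, hγ]
    · simp

theorem g_L_inr_none (h : D.G) (α : D.ι) (β : WithTop D.ι) :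
    D.g (D.L (Sum.inr α) h) (none, β) = 0 := by
  rw [g_L]
  apply Finset.sum_eq_zero
  intro γ _
  simp only [M]
  split_ifs with h
  · simp [D.hg]
  · simp

theorem g_L_inr_ne (h : D.G) (α α' : D.ι) (hne : α ≠ α') (β : WithTop D.ι) :
    D.g (D.L (Sum.inr α) h) (some α', β) = 0 := by
  rw [g_L]
  apply Finset.sum_eq_zero
  intro γ _
  simp only [M]
  split_ifs with h
  · simp [D.hg, hne]
  · simp

/-- the genericity criterion -/
theorem generic (A : Finset D.Om) (b : D.G) (β₀ : D.ι) (hβ₀ : b β₀ ≠ 0)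
    (hA : ∀ α : D.ι, Sum.inr α ∈ A → ∃ β : WithTop D.ι, (α : WithTop D.ι) ≤ β ∧ b β ≠ 0)
    (m : D.Om → ℤ) (hm : ∑ ω ∈ A, m ω • D.Φ b ω = 0) : ∀ ω ∈ A, m ω = 0 := by
  classical
  have h1 : ((∑ ω ∈ A, m ω • D.L ω b : ℝ) : UnitAddCircle) = 0 := by
    rw [← hm]
    refine (map_sum (QuotientAddGroup.mk' (AddSubgroup.zmultiples (1:ℝ)))
      (fun ω => m ω • D.L ω b) A).trans ?_
    refine Finset.sum_congr rfl fun ω _ => ?_
    rw [map_zsmul]; rfl
  obtain ⟨k, hk⟩ := (coe_eq_zero_iff _).1 h1
  have h2 : ∀ j, ∑ ω ∈ A, (m ω : D.K) * D.g (D.L ω b) j = 0 := by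
    intro j
    have h3 := congrArg (fun x => D.g x j) hk
    simp only [g_intCast, map_sum, map_zsmul] at h3
    rw [Finsupp.finsetSum_apply] at h3
    simpa using h3
  -- replace sum over A by full info
  let m' : D.Om → ℤ := fun ω => if ω ∈ A then m ω else 0
  have hm' : ∀ ω ∈ A, m' ω = m ω := fun ω h => by simp [m', h]
  -- coefficient (some α, β)
  have hinr : ∀ α, Sum.inr α ∈ A → m (Sum.inr α) = 0 := by
    intro α hα
    obtain ⟨β, hαβ, hβ⟩ := hA α hα
    have h3 := h2 (some α, β)
    rw [Finset.sum_eq_single (Sum.inr α)] at h3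
    · rw [g_L_inr _ _ _ _ hαβ] at h3
      have : (b β : D.K) ≠ 0 := by exact_mod_cast hβ
      have h4 := (mul_eq_zero.1 h3).resolve_right this
      exact_mod_cast h4
    · rintro (ω | α') _ hne
      · cases ω
        · rw [g_L_false', mul_zero]
        · rw [g_L_true', mul_zero]
      · rw [g_L_inr_ne _ _ _ _ (by rintro rfl; exact hne rfl), mul_zero]
    · intro h; exact absurd hα h
  have h3 := h2 (none, β₀)
  have h4 : (m' (Sum.inl false) : D.K) * b β₀ + (m' (Sum.inl true) : D.K) * (b β₀ * D.r) = 0 := by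
    rw [← h3]
    have h5 : ∑ ω ∈ A, (m ω : D.K) * D.g (D.L ω b) (none, (β₀ : WithTop D.ι))
        = ∑ ω ∈ A ∪ {Sum.inl false, Sum.inl true},
          (m' ω : D.K) * D.g (D.L ω b) (none, (β₀ : WithTop D.ι)) := by
      rw [← Finset.sum_subset (Finset.subset_union_left (s₂ := {Sum.inl false, Sum.inl true}))]
      · refine Finset.sum_congr rfl fun ω hω => by rw [hm' ω hω]
      · intro ω _ hω; simp [m', hω]
    rw [h5, ← Finset.sum_subset (Finset.subset_union_right (s₁ := A))]
    · rw [Finset.sum_pair (by simp)]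
      rw [g_L_false, g_L_true]
    · rintro (ω | α) _ h
      · cases ω <;> simp at h
      · rw [g_L_inr_none, mul_zero]
  have h5 : ((m' (Sum.inl false) : D.K) + (m' (Sum.inl true) : D.K) * D.r) * b β₀ = 0 := by
    rw [← h4]; ring
  have : (b β₀ : D.K) ≠ 0 := by exact_mod_cast hβ₀
  have h6 := D.hr _ _ ((mul_eq_zero.1 h5).resolve_right this)
  rintro (ω | α) hω
  · cases ω
    · rw [← hm' _ hω]; exact h6.1
    · rw [← hm' _ hω]; exact h6.2
  · exact hinr α hω

theorem Φ_injective : Function.Injective D.Φ := by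
  rw [injective_iff_map_eq_zero]
  intro h hh
  have h1 : D.Φ h (Sum.inl false) = 0 := by rw [hh]; rfl
  rw [Φ_apply] at h1
  obtain ⟨k, hk⟩ := (coe_eq_zero_iff _).1 h1
  ext β
  have h2 := D.g_L_false h β
  rw [hk, g_intCast] at h2
  have : ((0 : ℤ) : D.K) = ((h β : ℤ) : D.K) := by simpa using h2
  exact_mod_cast this.symm

/-- dense uncountable subgroups -/
theorem dense_of_uncountable (B : AddSubgroup D.G) (hB : ¬ (B : Set D.G).Countable) :
    Dense ((B.map D.Φ : AddSubgroup _) : Set (D.Om → UnitAddCircle)) := by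
  classical
  apply dense_of_generic
  intro A
  -- find a bound for A
  obtain ⟨α₀, hα₀⟩ : ∃ α₀ : D.ι, ∀ α, Sum.inr α ∈ A → α ≤ α₀ := by
    have : Nonempty D.ι := by
      by_contra h
      rw [not_nonempty_iff] at h
      exact not_countable (α := D.ι) inferInstance
    obtain ⟨M, hM⟩ := (A.preimage Sum.inr (Sum.inr_injective.injOn)).exists_le
    exact ⟨M, fun α hα => hM α (by simpa using hα)⟩
  -- elements with small support are countable
  have hS : {b : D.G | ∀ β : D.ι, α₀ ≤ β → b β = 0}.Countable := by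
    let T : Set (WithTop D.ι) := insert ⊤ ((fun x : D.ι => (x : WithTop D.ι)) '' Set.Iic α₀)
    have hT : T.Countable := ((D.cnt α₀).image _).insert _
    have : Countable T := hT
    have h1 : (Set.range (fun f : T →₀ ℤ => f.mapDomain (Subtype.val : T → WithTop D.ι))).Countable :=
      Set.countable_range _
    refine h1.mono ?_
    intro b hb
    refine ⟨b.comapDomain Subtype.val Subtype.val_injective.injOn, ?_⟩
    apply Finsupp.mapDomain_comapDomain _ Subtype.val_injective
    intro x hx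
    rw [Subtype.range_coe]
    induction x using WithTop.recTopCoe with
    | top => exact Set.mem_insert _ _
    | coe x =>
      refine Set.mem_insert_of_mem _ ⟨x, ?_, rfl⟩
      by_contra hx'
      have : b x = 0 := hb x (le_of_lt (not_le.1 hx'))
      simp [this] at hx
  obtain ⟨b, hbB, hb⟩ : ∃ b ∈ B, ¬ ∀ β : D.ι, α₀ ≤ β → b β = 0 := by
    by_contra h
    push Not at h
    exact hB (hS.mono fun b hb => h b hb)
  push Not at hb
  obtain ⟨β, hβ, hbβ⟩ := hb
  refine ⟨D.Φ b, ⟨b, hbB, rfl⟩, ?_⟩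
  intro m hm
  exact D.generic A b β hbβ (fun α hα => ⟨β, by exact_mod_cast (hα₀ α hα).trans hβ, hbβ⟩) m hm

/-- a countable dense subgroup -/
theorem dense_countable : ∃ b : D.G, 
    Dense (((AddSubgroup.zmultiples b).map D.Φ : AddSubgroup _) : Set (D.Om → UnitAddCircle)) := by
  classical
  obtain ⟨β₀⟩ : Nonempty D.ι := by
    by_contra h
    rw [not_nonempty_iff] at h
    exact not_countable (α := D.ι) inferInstance
  refine ⟨Finsupp.single ⊤ 1 + Finsupp.single (β₀ : WithTop D.ι) 1, ?_⟩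
  apply dense_of_generic
  intro A
  refine ⟨_, ⟨_, AddSubgroup.mem_zmultiples _, rfl⟩, ?_⟩
  intro m hm
  refine D.generic A _ β₀ ?_ ?_ m hm
  · simp
  · intro α _
    exact ⟨⊤, le_top, by simp⟩

end Data


end Pool.Agent.Lib.MP_656a26_gt
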