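import Mathlib

/-!
# The (Markov) free topological group on a topological space

`FreeTopGroup X` is the abstract free group on the set `X`, with the finest group topology whose
restriction to `X` is the original topology of `X`.
-/

open Topology TopologicalSpace Set

namespace Pool.Agent.Lib.MP_656a26_gt

/-- The underlying group of the free topological group on `X`: the abstract free group. -/
def FreeTopGroup (X : Type*) : Type _ := FreeGroup X

namespace FreeTopGroup

variable (X : Type*)

/-- The group structure is the one of the abstract free group. -/
instance instGroup : Group (FreeTopGroup X) := (FreeGroup.instGroup : Group (FreeGroup X))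

variable {X} in
/-- The canonical map from `X` to the free group on `X` (its free generators). -/
def of (x : X) : FreeTopGroup X := FreeGroup.of x

/-- The finest group topology on the free group on `X` whose restriction to `X` is the original
topology `t` of `X`. In the order of Mathlib on group topologies finer topologies are smaller, so
this is the infimum of all group topologies restricting to `t`; see `isEmbedding_of` and
`groupTopology_isLeast` below. -/
def groupTopology [t : TopologicalSpace X] : GroupTopology (FreeTopGroup X) :=
  sInf {τ : GroupTopology (FreeTopGroup X) | TopologicalSpace.induced of τ.toTopologicalSpace = t}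

instance [TopologicalSpace X] : TopologicalSpace (FreeTopGroup X) :=
  (groupTopology X).toTopologicalSpace

instance [TopologicalSpace X] : IsTopologicalGroup (FreeTopGroup X) :=
  (groupTopology X).toIsTopologicalGroup

/-! ### Sanity checks: the definition is the usual one -/

section Basic

variable {X} {G : Type*} [Group G]

/-- The extension of a map into a group to a homomorphism on the free group. -/
def lift (f : X → G) : FreeTopGroup X →* G := FreeGroup.lift f

@[simp] theorem lift_of (f : X → G) (x : X) : lift f (of x) = f x :=
  FreeGroup.lift_apply_of ..

variable [t : TopologicalSpace X] [TopologicalSpace G] [IsTopologicalGroup G]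

/-- The group topology induced by a homomorphism to a topological group. -/
def inducedTop (f : FreeTopGroup X →* G) : GroupTopology (FreeTopGroup X) :=
  { toTopologicalSpace := TopologicalSpace.induced f inferInstance
    toIsTopologicalGroup := topologicalGroup_induced f }

/-- If some group topology restricts to the original topology of `X`, then `groupTopology X`
does, too. -/
theorem isInducing_of_of_exists
    (h : ∃ τ : GroupTopology (FreeTopGroup X),
      TopologicalSpace.induced of τ.toTopologicalSpace = t) :
    IsInducing (of : X → FreeTopGroup X) := by
  refine ⟨?_⟩
  show t = TopologicalSpace.induced of (groupTopology X).toTopologicalSpace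
  rw [groupTopology, GroupTopology.toTopologicalSpace_sInf, sInf_image, induced_iInf]
  simp only [induced_iInf]
  apply le_antisymm
  · refine le_iInf fun τ => le_iInf fun hτ => ?_
    exact hτ.ge
  · obtain ⟨τ, hτ⟩ := h
    exact (iInf_le _ τ).trans ((iInf_le _ hτ).trans hτ.le)

/-- For a completely regular space some group topology restricts to the original topology. -/
theorem exists_top [CompletelyRegularSpace X] : ∃ τ : GroupTopology (FreeTopGroup X),
    TopologicalSpace.induced of τ.toTopologicalSpace = t := by
  refine ⟨⨅ f : C(X, Multiplicative ℝ), inducedTop (lift f), ?_⟩
  rw [GroupTopology.toTopologicalSpace_iInf, induced_iInf]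
  have h1 : ∀ f : C(X, Multiplicative ℝ),
      TopologicalSpace.induced of (inducedTop (lift f)).toTopologicalSpace
        = TopologicalSpace.induced f inferInstance := by
    intro f
    show TopologicalSpace.induced of (TopologicalSpace.induced (lift f) inferInstance) = _
    rw [induced_compose]
    congr 1
    ext x; simp
  simp only [h1]
  apply le_antisymm
  · refine le_of_nhds_le_nhds fun x => ?_
    rw [nhds_iInf]
    simp only [nhds_induced]
    intro U hU
    obtain ⟨V, hVU, hV, hxV⟩ := mem_nhds_iff.1 hU
    obtain ⟨f, hf, hf0, hf1⟩ :=
      CompletelyRegularSpace.completely_regular x Vᶜ hV.isClosed_compl (by simpa using hxV)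
    have hf' : Continuous fun y => Multiplicative.ofAdd (f y : ℝ) := by
      have : Continuous fun y => (f y : ℝ) := by fun_prop
      exact this
    let F : C(X, Multiplicative ℝ) := ⟨fun y => Multiplicative.ofAdd (f y : ℝ), hf'⟩
    have hF : ∀ y, Multiplicative.toAdd (F y) = (f y : ℝ) := fun y => rfl
    refine Filter.mem_iInf_of_mem F ?_
    rw [Filter.mem_comap]
    refine ⟨{z | Multiplicative.toAdd z < 1}, ?_, ?_⟩
    · apply IsOpen.mem_nhds
      · exact isOpen_lt continuous_toAdd continuous_const
      · show Multiplicative.toAdd (F x) < 1
        rw [hF, hf0]; simp
    · intro y hy
      apply hVU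
      by_contra hyV
      have h2 : Multiplicative.toAdd (F y) < 1 := hy
      rw [hF, hf1 hyV] at h2
      simp at h2
  · refine le_iInf fun f => ?_
    exact continuous_iff_le_induced.1 f.continuous

/-- `X` is a topological subspace of `FreeTopGroup X` (for `X` completely regular). -/
theorem isEmbedding_of [CompletelyRegularSpace X] : IsEmbedding (of : X → FreeTopGroup X) :=
  ⟨isInducing_of_of_exists exists_top, FreeGroup.of_injective⟩

/-- `groupTopology X` is indeed the finest (least, in the order of Mathlib) group topology on the
free group whose restriction to `X` is the original topology of `X`. -/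
theorem groupTopology_isLeast [CompletelyRegularSpace X] :
    IsLeast {τ : GroupTopology (FreeTopGroup X) |
      TopologicalSpace.induced of τ.toTopologicalSpace = t} (groupTopology X) :=
  ⟨(isEmbedding_of (X := X)).isInducing.eq_induced.symm, fun _ hτ => sInf_le hτ⟩

/-- The universal property: every continuous map from `X` to a topological group extends to a
continuous homomorphism on `FreeTopGroup X`. -/
theorem continuous_lift [CompletelyRegularSpace X] (f : X → G) (hf : Continuous f) :
    Continuous (lift f) := by
  obtain ⟨τ, hτ⟩ := exists_top (X := X)
  have h1 : TopologicalSpace.induced of (τ ⊓ inducedTop (lift f)).toTopologicalSpace = t := by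
    rw [GroupTopology.toTopologicalSpace_inf, induced_inf, hτ]
    refine inf_eq_left.2 ?_
    show t ≤ TopologicalSpace.induced of (TopologicalSpace.induced (lift f) inferInstance)
    rw [induced_compose]
    have : (lift f : FreeTopGroup X → G) ∘ of = f := by ext x; simp
    rw [this]
    exact continuous_iff_le_induced.1 hf
  rw [continuous_iff_le_induced]
  refine (GroupTopology.toTopologicalSpace_le.2
    (sInf_le h1 : groupTopology X ≤ τ ⊓ inducedTop (lift f))).trans ?_
  rw [GroupTopology.toTopologicalSpace_inf]
  exact inf_le_right

end Basic

end FreeTopGroup

end Pool.Agent.Lib.MP_656a26_gt
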