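import Pool.Agent.Lib.MP_656a26_gt.Defs
import Pool.Agent.Lib.MP_656a26_gt.Core

/-!
# Any topological group mapping onto the real line fails to be strongly separable
-/

open Topology TopologicalSpace Filter Set Cardinal

namespace Pool.Agent.Lib.MP_656a26_gt

/-- The homomorphism to the reals extending the inclusion of the interval. -/
noncomputable def rho : FreeTopGroup (Set.Icc (0 : ℝ) 1) →* Multiplicative ℝ :=
  FreeTopGroup.lift fun x => Multiplicative.ofAdd (x : ℝ)

theorem continuous_rho : Continuous rho :=
  FreeTopGroup.continuous_lift _ (by fun_prop)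

theorem rho_surjective : Function.Surjective rho := by
  intro t
  obtain ⟨n, hn⟩ := exists_nat_gt |Multiplicative.toAdd t|
  have hn0 : (0:ℝ) < n := lt_of_le_of_lt (abs_nonneg _) hn
  have h1 : |Multiplicative.toAdd t| / n ∈ Set.Icc (0:ℝ) 1 :=
    ⟨by positivity, by rw [div_le_one hn0]; exact hn.le⟩
  have h2 : rho (FreeTopGroup.of ⟨_, h1⟩ ^ n) = Multiplicative.ofAdd |Multiplicative.toAdd t| := by
    rw [map_pow, rho, FreeTopGroup.lift_of]
    show Multiplicative.ofAdd (n • (|Multiplicative.toAdd t| / n)) = _
    congr 1
    rw [nsmul_eq_mul]; field_simp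
  rcases le_or_gt 0 (Multiplicative.toAdd t) with h | h
  · exact ⟨_, by rw [h2, abs_of_nonneg h]; rfl⟩
  · refine ⟨(FreeTopGroup.of ⟨_, h1⟩ ^ n)⁻¹, ?_⟩
    rw [map_inv, h2, abs_of_neg h]
    show Multiplicative.ofAdd (- - Multiplicative.toAdd t) = t
    rw [neg_neg]; rfl

/-- The data exist. -/
theorem exists_data : Nonempty Data := by
  obtain ⟨ι, ord, hunc, hcnt, hcard⟩ := exists_index
  let K : Subfield ℝ := Subfield.closure {√2}
  have hK : #K ≤ ℵ₀ := by
    refine (Subfield.cardinalMk_closure_le_max _).trans ?_
    simp
  have hr : (√2 : ℝ) ∈ K := Subfield.subset_closure (by simp)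
  have hc2 : #(Option ι × WithTop ι) ≤ 𝔠 := by
    have h1 : #(Option ι) ≤ 𝔠 := by
      rw [Cardinal.mk_option]
      exact Cardinal.add_le_of_le Cardinal.aleph0_le_continuum hcard
        (Cardinal.one_le_aleph0.trans Cardinal.aleph0_le_continuum)
    have h2 : #(WithTop ι) ≤ 𝔠 := h1
    rw [Cardinal.mk_prod, Cardinal.lift_id, Cardinal.lift_id]
    exact (mul_le_mul' h1 h2).trans (by simp)
  obtain ⟨v, g, hg, hg1⟩ := exists_family K hK (Option ι × WithTop ι) hc2
  refine ⟨{ ι := ι, unc := hunc, cnt := hcnt, K := K, r := ⟨√2, hr⟩, hr := ?_, v := v, g := g,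
            hg := hg, hg1 := hg1 }⟩
  intro a c h
  have h' : (a : ℝ) + c * √2 = 0 := by
    have := congrArg (fun x : K => (x : ℝ)) h
    simpa using this
  have hc : c = 0 := by
    by_contra hc
    have hirr : Irrational ((c : ℝ) * √2) := irrational_sqrt_two.intCast_mul hc
    have h3 : (c : ℝ) * √2 = ((-a : ℤ) : ℝ) := by push_cast; linarith
    rw [h3] at hirr
    exact (Int.not_irrational _) hirr
  subst hc
  simp at h'
  exact ⟨h', rfl⟩

/-- The main theorem for a general topological group mapping continuously onto the real line. -/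
theorem main {G : Type*} [Group G] [TopologicalSpace G] (ρ : G →* Multiplicative ℝ)
    (hρ : Continuous ρ) (hsurj : Function.Surjective ρ) :
    ∃ (H : Type) (_ : CommGroup H) (_ : TopologicalSpace H) (_ : IsTopologicalGroup H),
      T2Space H ∧
      (∀ K : Subgroup H, IsClosed (K : Set H) → SeparableSpace K) ∧
      ∃ C : Subgroup (G × H), IsClosed (C : Set (G × H)) ∧ ¬ SeparableSpace C := by
  classical
  obtain ⟨D⟩ := exists_data
  let top : TopologicalSpace D.G := TopologicalSpace.induced D.Φ inferInstance
  have tgrp : IsTopologicalAddGroup D.G := topologicalAddGroup_induced D.Φ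
  have hΦind : IsInducing D.Φ := ⟨rfl⟩
  have hΦc : Continuous D.Φ := hΦind.continuous
  have key : ∀ B : AddSubgroup D.G,
      Dense ((B.map D.Φ : AddSubgroup _) : Set (D.Om → UnitAddCircle)) → Dense (B : Set D.G) := by
    intro B hB x
    rw [hΦind.closure_eq_preimage_closure_image]
    exact hB _
  refine ⟨Multiplicative D.G, inferInstance, inferInstance, inferInstance, ?_, ?_, ?_⟩
  · -- Hausdorff
    have : T2Space D.G := T2Space.of_injective_continuous D.Φ_injective hΦc
    exact this
  · -- closed subgroups are separable
    intro K hK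
    by_cases hc : (K : Set (Multiplicative D.G)).Countable
    · have : Countable K := hc
      infer_instance
    · let B : AddSubgroup D.G := Subgroup.toAddSubgroup' K
      have hBc : ¬ (B : Set D.G).Countable := hc
      have hBclosed : IsClosed (B : Set D.G) := hK
      have hBdense : Dense (B : Set D.G) := key B (D.dense_of_uncountable B hBc)
      have hBtop : (B : Set D.G) = Set.univ := by
        rw [← hBclosed.closure_eq]; exact hBdense.closure_eq
      have hKtop : K = ⊤ := by
        rw [eq_top_iff]
        intro x _
        have : x ∈ (B : Set D.G) := by rw [hBtop]; trivial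
        exact this
      obtain ⟨b, hb⟩ := D.dense_countable
      have hbd : Dense (AddSubgroup.zmultiples b : Set D.G) := key _ hb
      have hsep : SeparableSpace D.G :=
        ⟨⟨_, (Set.countable_range (fun k : ℤ => k • b)).mono (by
          rintro x hx
          obtain ⟨k, rfl⟩ := AddSubgroup.mem_zmultiples_iff.1 hx
          exact ⟨k, rfl⟩), hbd⟩⟩
      have hsep' : SeparableSpace (Multiplicative D.G) := hsep
      rw [hKtop]
      exact (Homeomorph.Set.univ (Multiplicative D.G)).symm.surjective.denseRange.separableSpace
        (Homeomorph.Set.univ (Multiplicative D.G)).symm.continuous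
  · -- the bad subgroup
    let C : Subgroup (G × Multiplicative D.G) :=
      { carrier := {x | D.Φ (Multiplicative.toAdd x.2) (Sum.inl false)
            = ((Multiplicative.toAdd (ρ x.1) : ℝ) : UnitAddCircle) ∧
          D.Φ (Multiplicative.toAdd x.2) (Sum.inl true)
            = (((D.r : ℝ) * (Multiplicative.toAdd (ρ x.1)) : ℝ) : UnitAddCircle)}
        mul_mem' := by
          rintro x y ⟨hx1, hx2⟩ ⟨hy1, hy2⟩
          constructor
          · simp only [Prod.snd_mul, Prod.fst_mul, toAdd_mul, map_add, map_mul, Pi.add_apply,
              hx1, hy1, AddCircle.coe_add]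
          · simp only [Prod.snd_mul, Prod.fst_mul, toAdd_mul, map_add, map_mul, Pi.add_apply,
              hx2, hy2, mul_add, AddCircle.coe_add]
        one_mem' := by
          constructor
          · simp
          · simp
        inv_mem' := by
          rintro x ⟨hx1, hx2⟩
          constructor
          · simp only [Prod.snd_inv, Prod.fst_inv, toAdd_inv, map_neg, map_inv, Pi.neg_apply,
              hx1, AddCircle.coe_neg]
          · simp only [Prod.snd_inv, Prod.fst_inv, toAdd_inv, map_neg, map_inv, Pi.neg_apply,
              hx2, mul_neg, AddCircle.coe_neg] }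
    have hcΦ : ∀ ω, Continuous fun x : G × Multiplicative D.G =>
        D.Φ (Multiplicative.toAdd x.2) ω := by
      intro ω
      have h1 : Continuous fun x : G × Multiplicative D.G => D.Φ (Multiplicative.toAdd x.2) :=
        hΦc.comp (continuous_toAdd.comp continuous_snd)
      exact (continuous_apply ω).comp h1
    have hcρ : Continuous fun x : G × Multiplicative D.G => Multiplicative.toAdd (ρ x.1) :=
      continuous_toAdd.comp (hρ.comp continuous_fst)
    refine ⟨C, ?_, ?_⟩
    · refine IsClosed.inter ?_ ?_
      · exact isClosed_eq (hcΦ _) ((AddCircle.continuous_mk' 1).comp hcρ)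
      · exact isClosed_eq (hcΦ _) ((AddCircle.continuous_mk' 1).comp (continuous_const.mul hcρ))
    · intro hsep
      -- elements of `C` have zero coefficient at the top
      have htop : ∀ x ∈ C, (Multiplicative.toAdd x.2 : D.G) ⊤ = 0 := by
        rintro x ⟨hx1, hx2⟩
        set h : D.G := Multiplicative.toAdd x.2 with hh
        set t : ℝ := Multiplicative.toAdd (ρ x.1) with ht
        rw [Data.Φ_apply] at hx1 hx2
        have e1 : ((D.L (Sum.inl false) h - t : ℝ) : UnitAddCircle) = 0 := by
          rw [AddCircle.coe_sub, hx1, sub_self]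
        have e2 : ((D.L (Sum.inl true) h - D.r * t : ℝ) : UnitAddCircle) = 0 := by
          rw [AddCircle.coe_sub, hx2, sub_self]
        obtain ⟨k1, hk1⟩ := (Data.coe_eq_zero_iff _).1 e1
        obtain ⟨k2, hk2⟩ := (Data.coe_eq_zero_iff _).1 e2
        have e3 : (D.r : ℝ) * D.L (Sum.inl false) h
            = D.L (Sum.inl true) h + ((D.r : ℝ) * k1 - k2) := by
          have e4 : D.L (Sum.inl false) h = k1 + t := by linarith
          have e5 : D.L (Sum.inl true) h = k2 + D.r * t := by linarith
          rw [e4, e5]; ring
        have e6 := congrArg (fun y => D.g y (none, (⊤ : WithTop D.ι))) e3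
        simp only [map_add, map_sub, Data.g_r_smul, Data.g_intCast] at e6
        simp only [Finsupp.coe_smul, Pi.smul_apply,
          Data.g_L_false, Data.g_L_true_top, smul_eq_mul, smul_zero, sub_zero, add_zero] at e6
        have hr0 : D.r ≠ 0 := by
          intro h0
          have := D.hr 0 1 (by simp [h0])
          exact one_ne_zero this.2
        have e7 := (mul_eq_zero.1 e6).resolve_left hr0
        exact_mod_cast e7
      obtain ⟨s, hs, hsd⟩ := hsep.exists_countable_dense
      -- a bound for all supports
      let T : Set D.ι := {β | ∃ x ∈ s, (Multiplicative.toAdd (x : G × Multiplicative D.G).2 : D.G)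
        (β : WithTop D.ι) ≠ 0}
      have hT : T.Countable := by
        have h1 : T = ⋃ x ∈ s, {β : D.ι |
            (Multiplicative.toAdd (x : G × Multiplicative D.G).2 : D.G) (β : WithTop D.ι) ≠ 0} := by
          ext β; simp [T]
        rw [h1]
        refine hs.biUnion fun x _ => ?_
        refine Set.Finite.countable ?_
        refine Set.Finite.subset (Set.Finite.preimage (WithTop.coe_injective.injOn)
          (Finsupp.hasFiniteSupport (Multiplicative.toAdd (x : G × Multiplicative D.G).2 : D.G))) ?_
        intro β hβ
        exact hβ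
      obtain ⟨α, hα⟩ : ∃ α : D.ι, ∀ β ∈ T, β < α := by
        by_contra hcon
        push Not at hcon
        have h1 : (⋃ β ∈ T, Set.Iic β).Countable := hT.biUnion fun β _ => D.cnt β
        have h2 : (⋃ β ∈ T, Set.Iic β) = Set.univ := by
          rw [Set.eq_univ_iff_forall]
          intro a
          obtain ⟨β, hβ, haβ⟩ := hcon a
          exact Set.mem_biUnion hβ haβ
        rw [h2, Set.countable_univ_iff] at h1
        exact not_countable (α := D.ι) h1
      have hzero : ∀ x ∈ s, D.Φ (Multiplicative.toAdd (x : G × Multiplicative D.G).2)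
          (Sum.inr α) = 0 := by
        intro x hx
        rw [Data.Φ_apply]
        have : D.L (Sum.inr α) (Multiplicative.toAdd (x : G × Multiplicative D.G).2) = 0 := by
          rw [Data.L_apply]
          apply Finset.sum_eq_zero
          intro β hβ
          induction β using WithTop.recTopCoe with
          | top =>
            have h0 := htop x x.2
            rw [h0]; simp
          | coe β =>
            have hβα : β < α := hα β ⟨x, hx, by simpa using hβ⟩
            have : ¬ ((α : WithTop D.ι) ≤ β) := by
              rw [WithTop.coe_le_coe]; exact not_le.2 hβα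
            simp [Data.M, this]
        rw [this]; rfl
      have hall : ∀ x : C, D.Φ (Multiplicative.toAdd (x : G × Multiplicative D.G).2)
          (Sum.inr α) = 0 := by
        have hcl : IsClosed {x : C | D.Φ (Multiplicative.toAdd (x : G × Multiplicative D.G).2)
            (Sum.inr α) = 0} :=
          isClosed_eq ((hcΦ _).comp continuous_subtype_val) continuous_const
        intro x
        have h1 : closure s ⊆ {x : C | D.Φ (Multiplicative.toAdd (x : G × Multiplicative D.G).2)
            (Sum.inr α) = 0} := closure_minimal hzero hcl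
        exact h1 (hsd x)
      obtain ⟨γ, hγ⟩ := hsurj (Multiplicative.ofAdd (D.v (none, (α : WithTop D.ι))))
      have hmem : (γ, Multiplicative.ofAdd (Finsupp.single (α : WithTop D.ι) (1 : ℤ))) ∈ C := by
        constructor
        · show D.Φ (Finsupp.single (α : WithTop D.ι) (1 : ℤ)) (Sum.inl false) = _
          rw [Data.Φ_apply, Data.L_apply, Finsupp.sum_single_index (by simp)]
          simp [hγ, Data.M]
        · show D.Φ (Finsupp.single (α : WithTop D.ι) (1 : ℤ)) (Sum.inl true) = _
          rw [Data.Φ_apply, Data.L_apply, Finsupp.sum_single_index (by simp)]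
          simp [hγ, Data.M]
      have h1 := hall ⟨_, hmem⟩
      have h2 : D.Φ (Finsupp.single (α : WithTop D.ι) (1 : ℤ)) (Sum.inr α) = 0 := h1
      rw [Data.Φ_apply] at h2
      obtain ⟨k, hk⟩ := (Data.coe_eq_zero_iff _).1 h2
      have h3 := D.g_L_inr (Finsupp.single (α : WithTop D.ι) (1 : ℤ)) α (α : WithTop D.ι) le_rfl
      rw [hk, Data.g_intCast] at h3
      simp at h3

end Pool.Agent.Lib.MP_656a26_gt
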